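import Pool.Agent.W803.BE.DjC
import Pool.Agent.H438R2.RZ.M2

/-! BE-DJ: the dyadic band-pass operators -/

set_option autoImplicit false

open MeasureTheory Set Complex
open scoped ENNReal

namespace Pool.Agent.W803.BE

open Pool.Agent.W203.BE

theorem gn_mass (hB : S_BAS) {n : ℕ} {b : ℝ} (hb : 0 < b) :
    ∫ x : Fin n → ℝ, ‖gn (fun _ => ((b : ℝ) : ℂ)) x‖ = 1 := by
  obtain ⟨h1, h2, -, h3, -⟩ := hB (b : ℂ) (by simpa using hb)
  have h4 : ∫ x, ‖g1 (b : ℂ) x‖ = 1 := by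
    rw [integral_norm_eq_lintegral_enorm h2.aestronglyMeasurable, h3, Complex.norm_real,
      Real.norm_of_nonneg hb.le, Complex.ofReal_re, div_self hb.ne']
    simp
  have h5 : ∀ x : Fin n → ℝ, ‖gn (fun _ => ((b : ℝ) : ℂ)) x‖ = ∏ j, ‖g1 (b : ℂ) (x j)‖ := by
    intro x
    unfold gn
    rw [norm_prod]
  simp_rw [h5]
  rw [integral_fintype_prod_volume_eq_prod (fun (_ : Fin n) (x : ℝ) => ‖g1 (b : ℂ) x‖)]
  simp [h4]

theorem T_bd (hB : S_BAS) (hN : S_BASN) {n : ℕ} {b : ℝ} (hb : 0 < b) {f : (Fin n → ℝ) → ℂ}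
    {t : ℝ} (ht : 0 ≤ t) (hft : ∀ y, ‖f y‖ ≤ t) (x : Fin n → ℝ) :
    ‖T (fun _ => ((b : ℝ) : ℂ)) f x‖ ≤ t := by
  obtain ⟨-, h2, -⟩ := hN n (fun _ => ((b : ℝ) : ℂ)) (fun _ => by simpa using hb)
  have h3 : Integrable (fun y => ‖gn (fun _ : Fin n => ((b : ℝ) : ℂ)) (x - y)‖) :=
    (h2.comp_sub_left x).norm
  unfold T
  calc ‖∫ y, gn (fun _ : Fin n => ((b : ℝ) : ℂ)) (x - y) * f y‖
      ≤ ∫ y, ‖gn (fun _ : Fin n => ((b : ℝ) : ℂ)) (x - y)‖ * t := by
        refine norm_integral_le_of_norm_le (h3.mul_const t) (Filter.Eventually.of_forall ?_)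
        intro y
        rw [norm_mul]
        exact mul_le_mul_of_nonneg_left (hft y) (norm_nonneg _)
    _ = t := by
        rw [integral_mul_const, integral_sub_left_eq_self
          (fun y => ‖gn (fun _ : Fin n => ((b : ℝ) : ℂ)) y‖) volume x, gn_mass hB hb, one_mul]

theorem D_bd (hB : S_BAS) (hN : S_BASN) {n : ℕ} {κ : ℝ} (hκ : 0 < κ) (s : ℝ)
    {f : (Fin n → ℝ) → ℂ} {t : ℝ} (ht : 0 ≤ t) (hft : ∀ y, ‖f y‖ ≤ t) (x : Fin n → ℝ) :
    ‖D κ s f x‖ ≤ 2 * t := by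
  have hb1 : 0 < κ / 2 := by positivity
  have hb2 : 0 < κ / 2 + κ * (1 + |s|) := by positivity
  unfold D
  have h1 := T_bd hB hN hb1 ht hft x
  have h2 := T_bd hB hN hb2 ht hft x
  refine (norm_sub_le _ _).trans ?_
  linarith

theorem T_add (hN : S_BASN) {n : ℕ} {b : ℝ} (hb : 0 < b) {f g : (Fin n → ℝ) → ℂ}
    (hf : Integrable f) (hg : Integrable g) (x : Fin n → ℝ) :
    T (fun _ => ((b : ℝ) : ℂ)) (fun y => f y + g y) x =
      T (fun _ => ((b : ℝ) : ℂ)) f x + T (fun _ => ((b : ℝ) : ℂ)) g x := by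
  obtain ⟨-, -, -, -, h⟩ := hN n (fun _ => ((b : ℝ) : ℂ)) (fun _ => by simpa using hb)
  unfold T
  rw [← integral_add ((h f hf).1 x) ((h g hg).1 x)]
  congr 1
  funext y
  ring

theorem D_add (hN : S_BASN) {n : ℕ} {κ : ℝ} (hκ : 0 < κ) (s : ℝ) {f g : (Fin n → ℝ) → ℂ}
    (hf : Integrable f) (hg : Integrable g) (x : Fin n → ℝ) :
    D κ s (fun y => f y + g y) x = D κ s f x + D κ s g x := by
  have hb1 : 0 < κ / 2 := by positivity
  have hb2 : 0 < κ / 2 + κ * (1 + |s|) := by positivity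
  unfold D
  rw [T_add hN hb1 hf hg x, T_add hN hb2 hf hg x]
  ring

theorem D_cont (hN : S_BASN) {n : ℕ} {κ : ℝ} (hκ : 0 < κ) (s : ℝ) {f : (Fin n → ℝ) → ℂ}
    (hf : Integrable f) : Continuous (D κ s f) := by
  have hb1 : 0 < κ / 2 := by positivity
  have hb2 : 0 < κ / 2 + κ * (1 + |s|) := by positivity
  obtain ⟨-, -, -, -, h1⟩ := hN n (fun _ => ((κ / 2 : ℝ) : ℂ))
    (fun _ => by simpa using hb1)
  obtain ⟨-, -, -, -, h2⟩ := hN n (fun _ => ((κ / 2 + κ * (1 + |s|) : ℝ) : ℂ))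
    (fun _ => by rw [Complex.ofReal_re]; exact hb2)
  exact (h1 f hf).2.1.sub (h2 f hf).2.1

theorem dj (hB : S_BAS) (hN : S_BASN) (_hM : S_MEAS) : S_DJ := by
  classical
  intro n p hp2 hp4
  obtain ⟨C0, hC0, hL2⟩ := l2sum hN
  rcases hp2.eq_or_lt with rfl | hp
  · refine ⟨C0, hC0, ?_⟩
    intro s f _ hf
    simpa using hL2 n s f hf
  obtain ⟨C1, hC1, hmarc⟩ := Pool.Agent.H438R2.RZ.marcInf 2 p (by norm_num) hp
  refine ⟨C1 * C0 * 2 ^ (p - 2), by positivity, ?_⟩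
  intro s f hfm hf
  have hlog : 0 ≤ Real.log (1 + |s|) := Real.log_nonneg (by
    have := abs_nonneg s
    linarith)
  have hκ : ∀ j : ℤ, (0 : ℝ) < (4 : ℝ) ^ (-j) := fun j => by positivity
  have hmeas : ∀ g : (Fin n → ℝ) → ℂ, Integrable g → Measurable
      (fun q : ℤ × (Fin n → ℝ) => D ((4 : ℝ) ^ (-q.1)) s g q.2) := by
    intro g hg
    refine measurable_from_prod_countable_right fun j => ?_
    exact (D_cont hN (hκ j) s hg).measurable
  have hprod : ∀ h : ℤ × (Fin n → ℝ) → ℝ≥0∞, Measurable h →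
      ∫⁻ q, h q ∂((Measure.count : Measure ℤ).prod volume) = ∑' j : ℤ, ∫⁻ x, h (j, x) := by
    intro h hh
    rw [lintegral_prod _ hh.aemeasurable, lintegral_count]
  have key := hmarc (X := Fin n → ℝ) (Y := ℤ × (Fin n → ℝ)) volume
    ((Measure.count : Measure ℤ).prod volume)
    (fun q => ‖D ((4 : ℝ) ^ (-q.1)) s f q.2‖) (fun x => ‖f x‖)
    (hmeas f hf).norm hfm.norm (fun _ => norm_nonneg _) (fun _ => norm_nonneg _)
    (C0 * (1 + Real.log (1 + |s|))) 2 (by positivity) (by norm_num) (by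
      intro t ht
      have hset : MeasurableSet {x | t < ‖f x‖} := measurableSet_lt measurable_const hfm.norm
      set f1 : (Fin n → ℝ) → ℂ := {x | t < ‖f x‖}.indicator f with hf1
      set f2 : (Fin n → ℝ) → ℂ := {x | t < ‖f x‖}ᶜ.indicator f with hf2
      have i1 : Integrable f1 := hf.indicator hset
      have i2 : Integrable f2 := hf.indicator hset.compl
      refine ⟨fun q => ‖D ((4 : ℝ) ^ (-q.1)) s f1 q.2‖ₑ,
        fun q => ‖D ((4 : ℝ) ^ (-q.1)) s f2 q.2‖ₑ, (hmeas f1 i1).enorm, (hmeas f2 i2).enorm,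
        Filter.Eventually.of_forall fun q => ?_, ?_, Filter.Eventually.of_forall fun q => ?_⟩
      · have h1 : f = fun y => f1 y + f2 y := by
          funext y
          rw [hf1, hf2, Set.indicator_self_add_compl_apply]
        have h2 : D ((4 : ℝ) ^ (-q.1)) s f q.2 =
            D ((4 : ℝ) ^ (-q.1)) s f1 q.2 + D ((4 : ℝ) ^ (-q.1)) s f2 q.2 := by
          conv_lhs => rw [h1]
          exact D_add hN (hκ q.1) s i1 i2 q.2
        rw [ofReal_norm, h2]
        exact enorm_add_le _ _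
      · rw [hprod _ ((hmeas f1 i1).enorm.pow_const _)]
        have h1 := hL2 n s f1 i1
        have h2 : ∫⁻ x, ‖f1 x‖ₑ ^ 2 = ∫⁻ x in {x | t < ‖f x‖}, ENNReal.ofReal ‖f x‖ ^ (2 : ℝ) := by
          rw [← lintegral_indicator hset]
          congr 1
          funext x
          rw [hf1]
          by_cases hx : x ∈ {x | t < ‖f x‖}
          · rw [Set.indicator_of_mem hx, Set.indicator_of_mem hx, ofReal_norm]
            simp
          · rw [Set.indicator_of_notMem hx, Set.indicator_of_notMem hx]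
            simp
        rw [← h2]
        simpa using h1
      · show ‖D ((4 : ℝ) ^ (-q.1)) s f2 q.2‖ₑ ≤ _
        rw [← ofReal_norm]
        apply ENNReal.ofReal_le_ofReal
        refine D_bd hB hN (hκ q.1) s ht.le ?_ q.2
        intro y
        rw [hf2]
        by_cases hy : y ∈ {x | t < ‖f x‖}ᶜ
        · rw [Set.indicator_of_mem hy]
          exact not_lt.1 hy
        · rw [Set.indicator_of_notMem hy]
          simpa using ht.le)
  rw [hprod _ (((hmeas f hf).norm.ennreal_ofReal).pow_const p)] at key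
  simp only [ofReal_norm] at key
  refine key.trans (le_of_eq ?_)
  congr 2
  ring

end Pool.Agent.W803.BE
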