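import Mathlib

/-! BE-DJ, part A: the sum of the squares of the multipliers -/

set_option autoImplicit false

namespace Pool.Agent.W803.BE

open scoped ENNReal

/-- the multiplier as a function of `u = |ξ|^2` -/
noncomputable def mj (κ s u : ℝ) : ℝ :=
  Real.exp (-(κ / 2 * u)) - Real.exp (-((κ / 2 + κ * (1 + |s|)) * u))

theorem mj_eq (κ s u : ℝ) :
    mj κ s u = Real.exp (-(κ * u / 2)) * (1 - Real.exp (-((1 + |s|) * (κ * u)))) := by
  unfold mj
  rw [mul_sub, mul_one, ← Real.exp_add]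
  congr 2 <;> ring_nf

/-- the two sided geometric sequence -/
noncomputable def gg (i : ℤ) : ℝ := (1 / 4 : ℝ) ^ i.natAbs

theorem gg_nonneg (i : ℤ) : 0 ≤ gg i := by unfold gg; positivity

theorem gg_summable : Summable gg := by
  refine Summable.of_nat_of_neg ?_ ?_
  · have := summable_geometric_of_lt_one (r := (1 / 4 : ℝ)) (by norm_num) (by norm_num)
    simpa [gg] using this
  · have := summable_geometric_of_lt_one (r := (1 / 4 : ℝ)) (by norm_num) (by norm_num)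
    simpa [gg] using this

theorem gg_of_nonneg {i : ℤ} (hi : 0 ≤ i) : gg i = ((4 : ℝ) ^ i)⁻¹ := by
  unfold gg
  obtain ⟨n, rfl⟩ := Int.eq_ofNat_of_zero_le hi
  simp

theorem gg_of_nonpos {i : ℤ} (hi : i ≤ 0) : gg i = (4 : ℝ) ^ i := by
  unfold gg
  obtain ⟨n, hn⟩ := Int.eq_ofNat_of_zero_le (neg_nonneg.2 hi)
  have : i = -(n : ℤ) := by omega
  subst this
  simp

theorem mj_sq_le_one {κ s u : ℝ} (hκ : 0 < κ) (hu : 0 ≤ u) : mj κ s u ^ 2 ≤ 1 := by
  rw [mj_eq]
  have h0 : 0 ≤ κ * u := by positivity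
  have hN : 0 ≤ 1 + |s| := by positivity
  have h1 : Real.exp (-(κ * u / 2)) ≤ 1 := Real.exp_le_one_iff.2 (by linarith)
  have h2 : Real.exp (-((1 + |s|) * (κ * u))) ≤ 1 :=
    Real.exp_le_one_iff.2 (by nlinarith)
  have h3 := Real.exp_pos (-(κ * u / 2))
  have h4 := Real.exp_pos (-((1 + |s|) * (κ * u)))
  have h5 : 0 ≤ Real.exp (-(κ * u / 2)) * (1 - Real.exp (-((1 + |s|) * (κ * u)))) :=
    mul_nonneg h3.le (by linarith)
  have h6 : Real.exp (-(κ * u / 2)) * (1 - Real.exp (-((1 + |s|) * (κ * u)))) ≤ 1 := by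
    nlinarith
  nlinarith

theorem mj_sq_le_inv {κ s u : ℝ} (hκ : 0 < κ) (hu : 0 < u) : mj κ s u ^ 2 ≤ (κ * u)⁻¹ := by
  rw [mj_eq]
  have h0 : 0 < κ * u := by positivity
  have hN : 0 ≤ 1 + |s| := by positivity
  have h2 : Real.exp (-((1 + |s|) * (κ * u))) ≤ 1 :=
    Real.exp_le_one_iff.2 (by nlinarith)
  have h4 := Real.exp_pos (-((1 + |s|) * (κ * u)))
  have h5 : (1 - Real.exp (-((1 + |s|) * (κ * u)))) ^ 2 ≤ 1 := by nlinarith
  have h6 : Real.exp (-(κ * u / 2)) ^ 2 = (Real.exp (κ * u))⁻¹ := by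
    rw [← Real.exp_nat_mul, ← Real.exp_neg]
    congr 1
    push_cast
    ring
  rw [mul_pow, h6]
  have h7 : κ * u ≤ Real.exp (κ * u) := by
    have := Real.add_one_le_exp (κ * u)
    linarith
  calc (Real.exp (κ * u))⁻¹ * (1 - Real.exp (-((1 + |s|) * (κ * u)))) ^ 2
      ≤ (Real.exp (κ * u))⁻¹ * 1 := by gcongr
    _ ≤ (κ * u)⁻¹ := by
        rw [mul_one]
        exact inv_anti₀ h0 h7

theorem mj_sq_le_lin {κ s u : ℝ} (hκ : 0 < κ) (hu : 0 ≤ u) :
    mj κ s u ^ 2 ≤ (1 + |s|) * (κ * u) := by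
  rw [mj_eq]
  have h0 : 0 ≤ κ * u := by positivity
  have hN : 0 ≤ 1 + |s| := by positivity
  have h1 : Real.exp (-(κ * u / 2)) ≤ 1 := Real.exp_le_one_iff.2 (by linarith)
  have h3 := Real.exp_pos (-(κ * u / 2))
  have h4 := Real.exp_pos (-((1 + |s|) * (κ * u)))
  have h7 := Real.add_one_le_exp (-((1 + |s|) * (κ * u)))
  have h2 : Real.exp (-((1 + |s|) * (κ * u))) ≤ 1 :=
    Real.exp_le_one_iff.2 (by nlinarith)
  have h8 : 0 ≤ 1 - Real.exp (-((1 + |s|) * (κ * u))) := by linarith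
  have h9 : 1 - Real.exp (-((1 + |s|) * (κ * u))) ≤ (1 + |s|) * (κ * u) := by linarith
  have h10 : (1 - Real.exp (-((1 + |s|) * (κ * u)))) ^ 2 ≤ (1 + |s|) * (κ * u) := by
    nlinarith
  have h11 : Real.exp (-(κ * u / 2)) ^ 2 ≤ 1 := by nlinarith
  rw [mul_pow]
  calc Real.exp (-(κ * u / 2)) ^ 2 * (1 - Real.exp (-((1 + |s|) * (κ * u)))) ^ 2
      ≤ 1 * (1 - Real.exp (-((1 + |s|) * (κ * u)))) ^ 2 := by gcongr
    _ ≤ _ := by linarith

theorem mj_zero (κ s : ℝ) : mj κ s 0 = 0 := by simp [mj]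

theorem mj_sum : ∃ C : ℝ, 0 < C ∧ ∀ s u : ℝ, 0 ≤ u →
    ∑' j : ℤ, ENNReal.ofReal (mj ((4 : ℝ) ^ (-j)) s u ^ 2) ≤
      ENNReal.ofReal (C * (1 + Real.log (1 + |s|))) := by
  have hG0 : 0 ≤ ∑' i, gg i := tsum_nonneg gg_nonneg
  refine ⟨2 * (∑' i, gg i) + 3, by linarith, ?_⟩
  intro s u hu
  have hN : 1 ≤ 1 + |s| := by
    have := abs_nonneg s
    linarith
  have hlog : 0 ≤ Real.log (1 + |s|) := Real.log_nonneg hN
  rcases hu.eq_or_lt with rfl | hu
  · simp [mj_zero]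
  set K : ℕ := ⌈Real.log (1 + |s|)⌉₊ with hK
  have hK1 : (K : ℝ) ≤ Real.log (1 + |s|) + 1 := (Nat.ceil_lt_add_one hlog).le
  have hK2 : 1 + |s| ≤ (4 : ℝ) ^ K := by
    have h1 : Real.log (1 + |s|) ≤ K := Nat.le_ceil _
    calc 1 + |s| = Real.exp (Real.log (1 + |s|)) := (Real.exp_log (by linarith)).symm
      _ ≤ Real.exp K := Real.exp_le_exp.2 h1
      _ = Real.exp 1 ^ K := by rw [← Real.exp_nat_mul, mul_one]
      _ ≤ 4 ^ K := by
          have := Real.exp_one_lt_d9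
          gcongr
          linarith
  obtain ⟨j0, hj1, hj2⟩ := exists_mem_Ico_zpow hu (by norm_num : (1 : ℝ) < 4)
  -- the pointwise bound
  have hpt : ∀ j : ℤ, mj ((4 : ℝ) ^ (-j)) s u ^ 2 ≤ gg (j0 - j) +
      (if j0 - j ∈ Finset.Icc (-(K + 1) : ℤ) 0 then 1 else 0) + gg (j0 - j + (K + 1)) := by
    intro j
    have hκ : (0 : ℝ) < (4 : ℝ) ^ (-j) := by positivity
    have ht1 : (4 : ℝ) ^ (j0 - j) ≤ (4 : ℝ) ^ (-j) * u := by
      rw [sub_eq_neg_add, zpow_add₀ (by norm_num)]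
      gcongr
    have ht2 : (4 : ℝ) ^ (-j) * u ≤ (4 : ℝ) ^ (j0 - j + 1) := by
      have : j0 - j + 1 = -j + (j0 + 1) := by ring
      rw [this, zpow_add₀ (by norm_num)]
      gcongr
    have g1 := gg_nonneg (j0 - j)
    have g2 := gg_nonneg (j0 - j + (K + 1))
    rcases le_or_gt 0 (j0 - j) with h | h
    · have h1 : mj ((4 : ℝ) ^ (-j)) s u ^ 2 ≤ gg (j0 - j) := by
        rw [gg_of_nonneg h]
        refine (mj_sq_le_inv hκ hu).trans ?_
        exact inv_anti₀ (by positivity) ht1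
      have h2 : (0 : ℝ) ≤ (if j0 - j ∈ Finset.Icc (-(K + 1) : ℤ) 0 then 1 else 0) := by
        split_ifs <;> norm_num
      linarith
    · rcases le_or_gt (-(K + 1) : ℤ) (j0 - j) with h' | h'
      · rw [if_pos (Finset.mem_Icc.2 ⟨h', h.le⟩)]
        have := mj_sq_le_one (s := s) hκ hu.le
        linarith
      · have h1 : mj ((4 : ℝ) ^ (-j)) s u ^ 2 ≤ gg (j0 - j + (K + 1)) := by
          rw [gg_of_nonpos (by omega)]
          calc mj ((4 : ℝ) ^ (-j)) s u ^ 2 ≤ (1 + |s|) * ((4 : ℝ) ^ (-j) * u) :=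
                mj_sq_le_lin hκ hu.le
            _ ≤ (4 : ℝ) ^ K * (4 : ℝ) ^ (j0 - j + 1) := by gcongr
            _ = (4 : ℝ) ^ (j0 - j + (K + 1)) := by
                rw [← zpow_natCast, ← zpow_add₀ (by norm_num)]
                congr 1
                ring
        have h2 : (0 : ℝ) ≤ (if j0 - j ∈ Finset.Icc (-(K + 1) : ℤ) 0 then 1 else 0) := by
          split_ifs <;> norm_num
        linarith
  have hsum : ∑' i : ℤ, ENNReal.ofReal (gg i) = ENNReal.ofReal (∑' i, gg i) :=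
    (ENNReal.ofReal_tsum_of_nonneg gg_nonneg gg_summable).symm
  calc ∑' j : ℤ, ENNReal.ofReal (mj ((4 : ℝ) ^ (-j)) s u ^ 2)
      ≤ ∑' j : ℤ, (ENNReal.ofReal (gg (j0 - j)) +
        (if j0 - j ∈ Finset.Icc (-(K + 1) : ℤ) 0 then 1 else 0) +
        ENNReal.ofReal (gg (j0 - j + (K + 1)))) := by
        refine ENNReal.tsum_le_tsum fun j => ?_
        refine (ENNReal.ofReal_le_ofReal (hpt j)).trans ?_
        rw [ENNReal.ofReal_add (by
          have := gg_nonneg (j0 - j)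
          split_ifs <;> linarith) (gg_nonneg _),
          ENNReal.ofReal_add (gg_nonneg _) (by split_ifs <;> norm_num)]
        gcongr
        split_ifs <;> simp
    _ = ∑' j : ℤ, ENNReal.ofReal (gg (j0 - j)) +
        ∑' j : ℤ, (if j0 - j ∈ Finset.Icc (-(K + 1) : ℤ) 0 then (1 : ℝ≥0∞) else 0) +
        ∑' j : ℤ, ENNReal.ofReal (gg (j0 - j + (K + 1))) := by
        rw [ENNReal.tsum_add, ENNReal.tsum_add]
    _ = ENNReal.ofReal (∑' i, gg i) + ((K + 2 : ℕ) : ℝ≥0∞) + ENNReal.ofReal (∑' i, gg i) := by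
        congr 1
        · congr 1
          · rw [← hsum]
            exact (Equiv.subLeft j0).tsum_eq (fun i => ENNReal.ofReal (gg i))
          · have h1 := (Equiv.subLeft j0).tsum_eq
              (fun i => if i ∈ Finset.Icc (-(K + 1) : ℤ) 0 then (1 : ℝ≥0∞) else 0)
            have h2 : ∑' j : ℤ, (if j0 - j ∈ Finset.Icc (-(K + 1) : ℤ) 0 then (1 : ℝ≥0∞) else 0) =
                ∑' i : ℤ, (if i ∈ Finset.Icc (-(K + 1) : ℤ) 0 then (1 : ℝ≥0∞) else 0) := h1
            rw [h2, tsum_eq_sum (s := Finset.Icc (-(K + 1) : ℤ) 0) (by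
              intro b hb
              rw [if_neg hb])]
            rw [Finset.sum_congr rfl (fun i hi => if_pos hi)]
            simp only [Finset.sum_const, nsmul_eq_mul, mul_one, Int.card_Icc]
            congr 1
            omega
        · rw [← hsum]
          exact ((Equiv.subLeft j0).trans (Equiv.addRight ((K : ℤ) + 1))).tsum_eq
            (fun i => ENNReal.ofReal (gg i))
    _ = ENNReal.ofReal ((∑' i, gg i) + (K + 2) + (∑' i, gg i)) := by
        rw [ENNReal.ofReal_add (by positivity) hG0, ENNReal.ofReal_add hG0 (by positivity)]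
        congr 2
        rw [← ENNReal.ofReal_natCast]
        push_cast
        rfl
    _ ≤ _ := by
        apply ENNReal.ofReal_le_ofReal
        nlinarith

end Pool.Agent.W803.BE
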