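import Pool.Agent.W203.BE.Stms
import Pool.Agent.H153R4.Pl
import Pool.Agent.W803.BE.DjA

/-! BE-DJ, part B: Plancherel on `Fin n → ℝ` -/

set_option autoImplicit false

open MeasureTheory Set Complex FourierTransform
open scoped ENNReal

namespace Pool.Agent.W803.BE

open Pool.Agent.W203.BE

/-- Fourier transform on `Fin n → ℝ` -/
noncomputable def FT {n : ℕ} (f : (Fin n → ℝ) → ℂ) (ξ : Fin n → ℝ) : ℂ :=
  ∫ y : Fin n → ℝ, cexp (-(2 * (Real.pi : ℂ) * I * ((∑ j, y j * ξ j : ℝ) : ℂ))) * f y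

theorem FT_eq {n : ℕ} (f : (Fin n → ℝ) → ℂ) (ξ : Fin n → ℝ) :
    FT f ξ = 𝓕 (fun v : EuclideanSpace ℝ (Fin n) => f (WithLp.ofLp v)) (WithLp.toLp 2 ξ) := by
  rw [Real.fourier_eq', ← (PiLp.volume_preserving_toLp (Fin n)).integral_comp
    (MeasurableEquiv.toLp 2 _).measurableEmbedding]
  unfold FT
  congr 1
  funext y
  rw [smul_eq_mul]
  congr 2
  simp only [PiLp.inner_apply, RCLike.inner_apply, conj_trivial]
  push_cast
  have : ∑ i, (ξ i : ℂ) * (y i : ℂ) = ∑ i, (y i : ℂ) * (ξ i : ℂ) :=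
    Finset.sum_congr rfl fun i _ => mul_comm _ _
  rw [this]
  ring

theorem FT_cont {n : ℕ} {f : (Fin n → ℝ) → ℂ} (hf : Integrable f) : Continuous (FT f) := by
  have h1 : Integrable (fun v : EuclideanSpace ℝ (Fin n) => f (WithLp.ofLp v)) :=
    (PiLp.volume_preserving_ofLp (Fin n)).integrable_comp_of_integrable hf
  have h2 : Continuous (𝓕 (fun v : EuclideanSpace ℝ (Fin n) => f (WithLp.ofLp v))) :=
    VectorFourier.fourierIntegral_continuous (L := innerₗ (EuclideanSpace ℝ (Fin n)))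
      Real.continuous_fourierChar continuous_inner h1
  have h3 : FT f = fun ξ => 𝓕 (fun v : EuclideanSpace ℝ (Fin n) => f (WithLp.ofLp v))
      (WithLp.toLp 2 ξ) := funext (FT_eq f)
  rw [h3]
  exact h2.comp (PiLp.continuous_toLp 2 _)

theorem norm_FT_le {n : ℕ} (f : (Fin n → ℝ) → ℂ) (ξ : Fin n → ℝ) :
    ‖FT f ξ‖ ≤ ∫ y, ‖f y‖ := by
  unfold FT
  refine (norm_integral_le_integral_norm _).trans (le_of_eq ?_)
  congr 1
  funext y
  rw [norm_mul]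
  have : ‖cexp (-(2 * (Real.pi : ℂ) * I * ((∑ j, y j * ξ j : ℝ) : ℂ)))‖ = 1 := by
    have h1 : -(2 * (Real.pi : ℂ) * I * ((∑ j, y j * ξ j : ℝ) : ℂ)) =
        ((-(2 * Real.pi * (∑ j, y j * ξ j)) : ℝ) : ℂ) * I := by
      push_cast
      ring
    rw [h1, Complex.norm_exp_ofReal_mul_I]
  rw [this, one_mul]

theorem memLp_two {n : ℕ} {f : (Fin n → ℝ) → ℂ} (hf : Integrable f)
    (h2 : ∫⁻ x, ‖f x‖ₑ ^ 2 ≠ ⊤) : MemLp f 2 := by
  refine ⟨hf.aestronglyMeasurable, ?_⟩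
  rw [eLpNorm_lt_top_iff_lintegral_rpow_enorm_lt_top (by norm_num) (by norm_num)]
  simpa using lt_top_iff_ne_top.2 h2

theorem plancherel {n : ℕ} {f : (Fin n → ℝ) → ℂ} (hf : Integrable f)
    (h2 : ∫⁻ x, ‖f x‖ₑ ^ 2 ≠ ⊤) : ∫⁻ ξ, ‖FT f ξ‖ₑ ^ 2 = ∫⁻ x, ‖f x‖ₑ ^ 2 := by
  have h1 : Integrable (fun v : EuclideanSpace ℝ (Fin n) => f (WithLp.ofLp v)) :=
    (PiLp.volume_preserving_ofLp (Fin n)).integrable_comp_of_integrable hf
  have h3 : MemLp (fun v : EuclideanSpace ℝ (Fin n) => f (WithLp.ofLp v)) 2 :=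
    (memLp_two hf h2).comp_measurePreserving (PiLp.volume_preserving_ofLp (Fin n))
  have h4 := Pool.Agent.H153R4.plancherel _ h1 h3
  rw [← (PiLp.volume_preserving_toLp (Fin n)).lintegral_comp_emb
    (MeasurableEquiv.toLp 2 _).measurableEmbedding,
    ← (PiLp.volume_preserving_toLp (Fin n)).lintegral_comp_emb
    (MeasurableEquiv.toLp 2 _).measurableEmbedding] at h4
  simpa [FT_eq] using h4

theorem plancherel_inv {n : ℕ} {G : (Fin n → ℝ) → ℂ} (hf : Integrable G)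
    (h2 : ∫⁻ x, ‖G x‖ₑ ^ 2 ≠ ⊤) :
    ∫⁻ x : Fin n → ℝ, ‖∫ ξ : Fin n → ℝ, G ξ *
      cexp (2 * (Real.pi : ℂ) * I * ((∑ j, x j * ξ j : ℝ) : ℂ))‖ₑ ^ 2 = ∫⁻ x, ‖G x‖ₑ ^ 2 := by
  have h : ∀ x : Fin n → ℝ, ∫ ξ : Fin n → ℝ, G ξ *
      cexp (2 * (Real.pi : ℂ) * I * ((∑ j, x j * ξ j : ℝ) : ℂ)) = FT G (-x) := by
    intro x
    unfold FT
    congr 1
    funext ξ
    rw [mul_comm]
    congr 2
    simp only [Pi.neg_apply, mul_neg, Finset.sum_neg_distrib]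
    push_cast
    have : ∑ i, (ξ i : ℂ) * (x i : ℂ) = ∑ i, (x i : ℂ) * (ξ i : ℂ) :=
      Finset.sum_congr rfl fun i _ => mul_comm _ _
    rw [this]
    ring
  simp_rw [h]
  rw [lintegral_neg_eq_self (μ := volume) (fun ξ => ‖FT G ξ‖ₑ ^ 2), plancherel hf h2]

end Pool.Agent.W803.BE
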