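import Pool.Agent.W803.BE.DjB

/-! BE-DJ, part C: the band-pass operators as Fourier multipliers -/

set_option autoImplicit false

open MeasureTheory Set Complex
open scoped ENNReal

namespace Pool.Agent.W803.BE

open Pool.Agent.W203.BE

/-- the square of the length -/
noncomputable def sq {n : ℕ} (ξ : Fin n → ℝ) : ℝ := ∑ j, ξ j ^ 2

theorem sq_nonneg' {n : ℕ} (ξ : Fin n → ℝ) : 0 ≤ sq ξ := Finset.sum_nonneg fun _ _ => sq_nonneg _

theorem sq_cont {n : ℕ} : Continuous (sq : (Fin n → ℝ) → ℝ) := by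
  unfold sq
  fun_prop

theorem gauss_int {n : ℕ} {b : ℝ} (hb : 0 < b) :
    Integrable (fun ξ : Fin n → ℝ => Real.exp (-(b * sq ξ))) := by
  have h := Integrable.fintype_prod (ι := Fin n) (𝕜 := ℝ) (E := ℝ)
    (f := fun _ x => Real.exp (-b * x ^ 2)) (μ := fun _ => volume)
    (fun _ => integrable_exp_neg_mul_sq hb)
  have h2 : (fun ξ : Fin n → ℝ => Real.exp (-(b * sq ξ))) =
      fun ξ : Fin n → ℝ => ∏ i, Real.exp (-b * ξ i ^ 2) := by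
    funext ξ
    rw [← Real.exp_sum]
    unfold sq
    rw [Finset.mul_sum, ← Finset.sum_neg_distrib]
    congr 1
    refine Finset.sum_congr rfl fun i _ => ?_
    ring
  rw [h2]
  exact h

theorem T_real (hN : S_BASN) {n : ℕ} {b : ℝ} (hb : 0 < b) {f : (Fin n → ℝ) → ℂ}
    (hf : Integrable f) (x : Fin n → ℝ) :
    Integrable (fun ξ : Fin n → ℝ => ((Real.exp (-(b * sq ξ)) : ℝ) : ℂ) * FT f ξ *
      cexp (2 * (Real.pi : ℂ) * I * ((∑ j, x j * ξ j : ℝ) : ℂ))) ∧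
    T (fun _ => ((b : ℝ) : ℂ)) f x = ∫ ξ : Fin n → ℝ, ((Real.exp (-(b * sq ξ)) : ℝ) : ℂ) *
      FT f ξ * cexp (2 * (Real.pi : ℂ) * I * ((∑ j, x j * ξ j : ℝ) : ℂ)) := by
  constructor
  · refine ((gauss_int (n := n) hb).mul_const (∫ y, ‖f y‖)).mono' ?_ ?_
    · refine Continuous.aestronglyMeasurable ?_
      have h1 := FT_cont hf
      have h2 := sq_cont (n := n)
      fun_prop
    · refine Filter.Eventually.of_forall fun ξ => ?_
      rw [norm_mul, norm_mul, Complex.norm_real, Real.norm_of_nonneg (Real.exp_pos _).le]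
      have h3 : ‖cexp (2 * (Real.pi : ℂ) * I * ((∑ j, x j * ξ j : ℝ) : ℂ))‖ = 1 := by
        have h1 : 2 * (Real.pi : ℂ) * I * ((∑ j, x j * ξ j : ℝ) : ℂ) =
            ((2 * Real.pi * (∑ j, x j * ξ j) : ℝ) : ℂ) * I := by
          push_cast
          ring
        rw [h1, Complex.norm_exp_ofReal_mul_I]
      rw [h3, mul_one]
      exact mul_le_mul_of_nonneg_left (norm_FT_le f ξ) (Real.exp_pos _).le
  · obtain ⟨-, -, -, -, h⟩ := hN n (fun _ => ((b : ℝ) : ℂ)) (fun _ => by simpa using hb)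
    rw [(h f hf).2.2.2.1 x]
    congr 1
    funext ξ
    congr 2
    rw [Complex.ofReal_exp]
    congr 1
    unfold sq
    push_cast
    rw [Finset.mul_sum]

/-- the Fourier transform of `D κ s f` -/
noncomputable def GG {n : ℕ} (κ s : ℝ) (f : (Fin n → ℝ) → ℂ) (ξ : Fin n → ℝ) : ℂ :=
  ((mj κ s (sq ξ) : ℝ) : ℂ) * FT f ξ

theorem mj_cont (κ s : ℝ) : Continuous (mj κ s) := by
  unfold mj
  fun_prop

theorem GG_cont {n : ℕ} (κ s : ℝ) {f : (Fin n → ℝ) → ℂ} (hf : Integrable f) :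
    Continuous (GG κ s f) := by
  have h1 := FT_cont hf
  have h2 : Continuous (fun ξ : Fin n → ℝ => mj κ s (sq ξ)) := (mj_cont κ s).comp sq_cont
  unfold GG
  fun_prop

theorem D_eq (hN : S_BASN) {n : ℕ} {κ : ℝ} (hκ : 0 < κ) (s : ℝ) {f : (Fin n → ℝ) → ℂ}
    (hf : Integrable f) (x : Fin n → ℝ) :
    D κ s f x = ∫ ξ : Fin n → ℝ, GG κ s f ξ *
      cexp (2 * (Real.pi : ℂ) * I * ((∑ j, x j * ξ j : ℝ) : ℂ)) := by
  have hb1 : 0 < κ / 2 := by positivity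
  have hb2 : 0 < κ / 2 + κ * (1 + |s|) := by positivity
  obtain ⟨i1, e1⟩ := T_real hN hb1 hf x
  obtain ⟨i2, e2⟩ := T_real hN hb2 hf x
  unfold D
  rw [e1, e2, ← integral_sub i1 i2]
  congr 1
  funext ξ
  unfold GG mj
  push_cast
  ring

theorem mj_bd {κ s u : ℝ} (hκ : 0 < κ) (hu : 0 ≤ u) :
    |mj κ s u| ≤ Real.exp (-(κ / 2 * u)) := by
  have h1 : Real.exp (-((κ / 2 + κ * (1 + |s|)) * u)) ≤ Real.exp (-(κ / 2 * u)) := by
    apply Real.exp_le_exp.2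
    have : 0 ≤ κ * (1 + |s|) * u := by positivity
    nlinarith
  have h2 := Real.exp_pos (-((κ / 2 + κ * (1 + |s|)) * u))
  unfold mj
  rw [abs_of_nonneg (by linarith)]
  linarith

theorem GG_int {n : ℕ} {κ : ℝ} (hκ : 0 < κ) (s : ℝ) {f : (Fin n → ℝ) → ℂ} (hf : Integrable f) :
    Integrable (GG κ s f) ∧ ∫⁻ ξ, ‖GG κ s f ξ‖ₑ ^ 2 ≠ ⊤ := by
  have hb : ∀ ξ, ‖GG κ s f ξ‖ ≤ Real.exp (-(κ / 2 * sq ξ)) * ∫ y, ‖f y‖ := by
    intro ξ
    unfold GG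
    rw [norm_mul, Complex.norm_real, Real.norm_eq_abs]
    exact mul_le_mul (mj_bd hκ (sq_nonneg' ξ)) (norm_FT_le f ξ) (norm_nonneg _)
      (Real.exp_pos _).le
  have hb2 : ∀ ξ, ‖GG κ s f ξ‖ ≤ ∫ y, ‖f y‖ := by
    intro ξ
    refine (hb ξ).trans ?_
    have h1 : Real.exp (-(κ / 2 * sq ξ)) ≤ 1 :=
      Real.exp_le_one_iff.2 (by have := sq_nonneg' ξ; nlinarith)
    have h2 : 0 ≤ ∫ y, ‖f y‖ := integral_nonneg fun _ => norm_nonneg _
    nlinarith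
  have h1 : Integrable (GG κ s f) :=
    ((gauss_int (n := n) (by positivity : 0 < κ / 2)).mul_const (∫ y, ‖f y‖)).mono'
      (GG_cont κ s hf).aestronglyMeasurable (Filter.Eventually.of_forall hb)
  refine ⟨h1, ?_⟩
  have h3 : ∫⁻ ξ, ‖GG κ s f ξ‖ₑ ^ 2 ≤
      ENNReal.ofReal (∫ y, ‖f y‖) * ∫⁻ ξ, ‖GG κ s f ξ‖ₑ := by
    rw [← lintegral_const_mul' _ _ ENNReal.ofReal_ne_top]
    refine lintegral_mono fun ξ => ?_
    rw [pow_two]
    gcongr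
    rw [← ofReal_norm]
    exact ENNReal.ofReal_le_ofReal (hb2 ξ)
  exact (h3.trans_lt (ENNReal.mul_lt_top ENNReal.ofReal_lt_top h1.2)).ne

theorem l2sum (hN : S_BASN) : ∃ C : ℝ, 0 < C ∧ ∀ (n : ℕ) (s : ℝ) (f : (Fin n → ℝ) → ℂ),
    Integrable f → ∑' j : ℤ, ∫⁻ x, ‖D ((4 : ℝ) ^ (-j)) s f x‖ₑ ^ 2 ≤
      ENNReal.ofReal (C * (1 + Real.log (1 + |s|))) * ∫⁻ x, ‖f x‖ₑ ^ 2 := by
  obtain ⟨C, hC, hCs⟩ := mj_sum
  refine ⟨C, hC, ?_⟩
  intro n s f hf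
  have hlog : 0 ≤ Real.log (1 + |s|) := Real.log_nonneg (by
    have := abs_nonneg s
    linarith)
  by_cases h2 : ∫⁻ x, ‖f x‖ₑ ^ 2 = ⊤
  · rw [h2, ENNReal.mul_top]
    · exact le_top
    · have : 0 < C * (1 + Real.log (1 + |s|)) := by positivity
      simpa using this
  have hj : ∀ j : ℤ, ∫⁻ x, ‖D ((4 : ℝ) ^ (-j)) s f x‖ₑ ^ 2 =
      ∫⁻ ξ, ENNReal.ofReal (mj ((4 : ℝ) ^ (-j)) s (sq ξ) ^ 2) * ‖FT f ξ‖ₑ ^ 2 := by
    intro j
    have hκ : (0 : ℝ) < (4 : ℝ) ^ (-j) := by positivity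
    obtain ⟨i1, i2⟩ := GG_int (s := s) hκ hf
    simp_rw [D_eq hN hκ s hf]
    rw [plancherel_inv i1 i2]
    congr 1
    funext ξ
    unfold GG
    rw [enorm_mul, mul_pow]
    congr 1
    rw [← ofReal_norm, Complex.norm_real, ← ENNReal.ofReal_pow (norm_nonneg _), Real.norm_eq_abs,
      sq_abs]
  simp_rw [hj]
  rw [← lintegral_tsum]
  · calc ∫⁻ ξ, ∑' j : ℤ, ENNReal.ofReal (mj ((4 : ℝ) ^ (-j)) s (sq ξ) ^ 2) * ‖FT f ξ‖ₑ ^ 2
        = ∫⁻ ξ, (∑' j : ℤ, ENNReal.ofReal (mj ((4 : ℝ) ^ (-j)) s (sq ξ) ^ 2)) *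
          ‖FT f ξ‖ₑ ^ 2 := by
          congr 1
          funext ξ
          rw [ENNReal.tsum_mul_right]
      _ ≤ ∫⁻ ξ, ENNReal.ofReal (C * (1 + Real.log (1 + |s|))) * ‖FT f ξ‖ₑ ^ 2 := by
          refine lintegral_mono fun ξ => ?_
          gcongr
          exact hCs s (sq ξ) (sq_nonneg' ξ)
      _ = ENNReal.ofReal (C * (1 + Real.log (1 + |s|))) * ∫⁻ ξ, ‖FT f ξ‖ₑ ^ 2 := by
          rw [lintegral_const_mul' _ _ ENNReal.ofReal_ne_top]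
      _ = _ := by rw [plancherel hf h2]
  · intro j
    refine Measurable.aemeasurable ?_
    have h1 : Measurable (fun ξ : Fin n → ℝ => mj ((4 : ℝ) ^ (-j)) s (sq ξ)) :=
      ((mj_cont _ s).comp sq_cont).measurable
    have h3 : Measurable (FT f) := (FT_cont hf).measurable
    fun_prop

end Pool.Agent.W803.BE
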